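import Pool.Agent.Lib.MP_8465a2_an.W.Main
import Pool.Agent.Lib.MP_8465a2_an.N2.Unique

open scoped MeasureTheory

namespace Pool.Agent.Results.MP_8465a2_an.Weighted

/-- For each `n ≥ 3` there is `C` such that for every non-constant harmonic function `u` on the
unit ball of `R^n` with bounded gradient the sum over `m ≥ 0` of `2 m + 1` times the
Hausdorff measure of dimension `n - 2` of the set of points of the half ball where all derivatives
of `u` of the orders `1, …, m + 1` vanish is at most `C N^2`, `N` the gradient frequency. -/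
theorem result :
    ∀ n : ℕ, 3 ≤ n → ∃ C : ℝ, ∀ u : EuclideanSpace ℝ (Fin n) → ℝ,
      InnerProductSpace.HarmonicOnNhd u (Metric.ball (0 : EuclideanSpace ℝ (Fin n)) 1) →
      (∃ x ∈ Metric.ball (0 : EuclideanSpace ℝ (Fin n)) 1,
        ∃ y ∈ Metric.ball (0 : EuclideanSpace ℝ (Fin n)) 1, u x ≠ u y) →
      BddAbove ((fun x => ‖fderiv ℝ u x‖) '' Metric.ball (0 : EuclideanSpace ℝ (Fin n)) 1) →
      ∑' m : ℕ, (2 * (m : ENNReal) + 1) * μH[(n : ℝ) - 2]
          ({x : EuclideanSpace ℝ (Fin n) |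
              ∀ k : ℕ, 1 ≤ k → k ≤ m + 1 → iteratedFDeriv ℝ k u x = 0} ∩
            Metric.ball (0 : EuclideanSpace ℝ (Fin n)) (1 / 2))
        ≤ ENNReal.ofReal (C * Real.log
          (sSup ((fun x => ‖fderiv ℝ u x‖) '' Metric.ball (0 : EuclideanSpace ℝ (Fin n)) 1) /
            sSup ((fun x => ‖fderiv ℝ u x‖) ''
              Metric.ball (0 : EuclideanSpace ℝ (Fin n)) (1 / 2))) ^ 2) := by
  intro n hn
  obtain ⟨C, hC, h⟩ := Pool.Agent.LinN2.wfinal hn (Pool.Agent.LinN2.wlocalAll hn)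
  refine ⟨2 * C, fun u hu hxy hb => ?_⟩
  have h2 : ContDiffOn ℝ 2 u (Metric.ball 0 1) := fun x hx => (hu x hx).1.contDiffWithinAt
  have hsub : Metric.ball (0 : EuclideanSpace ℝ (Fin n)) (1 / 2) ⊆ Metric.ball 0 1 :=
    Metric.ball_subset_ball (by norm_num)
  have hb' := hb.mono (Set.image_mono (f := fun x => ‖fderiv ℝ u x‖) hsub)
  have hl : ∀ x ∈ Metric.ball (0 : EuclideanSpace ℝ (Fin n)) 1, ∑ i : Fin n,
      iteratedFDeriv ℝ 2 u x (fun _ => EuclideanSpace.single i (1 : ℝ)) = 0 := fun x hx => by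
    have := (hu x hx).2.self_of_nhds
    rw [InnerProductSpace.laplacian_eq_iteratedFDeriv_orthonormalBasis u
      (EuclideanSpace.basisFun (Fin n) ℝ)] at this
    refine Eq.trans (Finset.sum_congr rfl fun i _ => ?_) this
    congr 1
    ext1 j
    fin_cases j <;> simp
  have hpos : 0 < sSup ((fun x => ‖fderiv ℝ u x‖) ''
      Metric.ball (0 : EuclideanSpace ℝ (Fin n)) (1 / 2)) := by
    by_contra hM
    obtain ⟨x, hx, y, hy, hxy⟩ := hxy
    exact hxy (Metric.isOpen_ball.is_const_of_fderiv_eq_zero (convex_ball _ _).isPreconnected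
      (h2.differentiableOn (by simp)) (Pool.Agent.LinN2.unique Pool.Agent.LinN2.main hn h2 hl
      fun z hz => norm_le_zero_iff.1 ((le_csSup hb' ⟨z, hz, rfl⟩).trans (not_lt.1 hM))) hx hy)
  have h4 := hpos.trans_le (csSup_le_csSup hb ⟨_, 0, by simp, rfl⟩ (Set.image_mono hsub))
  have h5 := h u _ _ h2 hl hpos (fun r hr => by
    obtain ⟨_, ⟨x, hx, rfl⟩, h6⟩ := exists_lt_of_lt_csSup
      ((Metric.nonempty_ball.2 (by norm_num)).image _) hr
    exact ⟨x, hx, h6⟩) (fun x hx => by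
    rw [Real.exp_log (div_pos h4 hpos), div_mul_cancel₀ _ hpos.ne']
    exact le_csSup hb ⟨x, hx, rfl⟩)
  rw [mul_assoc, ENNReal.ofReal_mul zero_le_two, ENNReal.ofReal_ofNat]
  refine le_trans ?_ (mul_le_mul' le_rfl h5)
  rw [Pool.Agent.LinN2.WS, ← ENNReal.tsum_mul_left]
  refine ENNReal.tsum_le_tsum fun m => ?_
  rw [← mul_assoc, mul_add]
  gcongr
  simp

end Pool.Agent.Results.MP_8465a2_an.Weighted
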